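import Pool.Agent.helper32.QS.Spec

set_option autoImplicit false

namespace QS

open scoped BigOperators commutatorElement

/-- the `p`-th power of the commutator of a Heisenberg pair is trivial -/
theorem CIb_pow {G : Type} [Group G] (p : ℕ) (x y : G) (h : Heis p x y) : ⁅x, y⁆ ^ p = 1 := by
  obtain ⟨hx, hy, hne, hcx, hcy⟩ := h
  have h1 : y * x⁻¹ * y⁻¹ = x⁻¹ * ⁅x, y⁆ := by
    rw [commutatorElement_def]; group
  have hc : Commute (x⁻¹) (⁅x, y⁆) := by
    have : Commute x (⁅x, y⁆) := hcx.symm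
    exact this.inv_left
  have h2 : (y * x⁻¹ * y⁻¹) ^ p = 1 := by
    rw [conj_pow, inv_pow, hx]; group
  rw [h1, hc.mul_pow, inv_pow, hx] at h2
  simpa using h2

/-- a Heisenberg pair can be swapped -/
theorem CIb_swap {G : Type} [Group G] (p : ℕ) (x y : G) (h : Heis p x y) : Heis p y x := by
  obtain ⟨hx, hy, hne, hcx, hcy⟩ := h
  have hi : ⁅y, x⁆ = ⁅x, y⁆⁻¹ := by rw [commutatorElement_inv]
  refine ⟨hy, hx, ?_, ?_, ?_⟩
  · rw [hi]; exact inv_ne_one.mpr hne
  · rw [hi]
    have : Commute (⁅x, y⁆) y := hcy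
    exact this.inv_left
  · rw [hi]
    have : Commute (⁅x, y⁆) x := hcx
    exact this.inv_left

theorem CIb (hK3 : K3_stmt) (hXC : XC_stmt) (hPN : PN_stmt) (hSUM : SUM_stmt) (hNIb1 : NIb1_stmt)
    (hNIb2 : NIb2_stmt) (hFIN : FIN_stmt) : CIb_stmt := by
  intro k U H _ _ _ _ _ _ _ _ hD S hS p hp hp5 hall hex
  obtain ⟨x, y, hxy⟩ := hex
  obtain ⟨k1, k2, k3, k4⟩ := hK3 k U H hD
  apply hFIN U H p
  have hgood : {u : U | u ≠ 0 ∧ ¬ Good p H u} = ∅ := by
    rw [Set.eq_empty_iff_forall_notMem]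
    rintro u ⟨hu, hng⟩
    apply hng
    intro x' y' hh hx' hy'
    have hz : ⁅x', y'⁆ • u = u := by
      have hx1 : x'⁻¹ • u = u := by
        rw [inv_smul_eq_iff, hx']
      have hy1 : y'⁻¹ • u = u := by
        rw [inv_smul_eq_iff, hy']
      rw [commutatorElement_def, mul_smul, mul_smul, mul_smul, hy1, hx1, hy', hx']
    exact hh.2.2.1 (k1 _ (hall x' y' hh) u hu hz)
  rw [hgood, Set.ncard_empty, zero_add]
  obtain ⟨e, r, s, hr, hs, hk, hE, he2, hen, hH, hl, hU⟩ := hSUM k U H hD S hS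
  rw [hU, hk]
  rw [hk] at hH hl
  have key : s * (r ^ s - 1) * Bd e + 1 < (r ^ s) ^ Module.finrank k U := by
    by_cases hx : x ∈ SC k U H
    · by_cases hy : y ∈ SC k U H
      · have hpn : p ∣ Module.finrank k U := hPN k U H hD p hp x hx y hy hxy (hall x y hxy)
        have hzp := CIb_pow p x y hxy
        have hord : orderOf ⁅x, y⁆ = p :=
          orderOf_eq_prime hzp hxy.2.2.1 (hp := ⟨hp⟩)
        have hpk : p ∣ r ^ s - 1 := by
          rw [← hk]
          refine dvd_trans ?_ k2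
          have h1 : orderOf (⟨⁅x, y⁆, hall x y hxy⟩ : SA k U H) = p := by
            rw [← hord]
            exact Subgroup.orderOf_mk _ _
          rw [← h1]
          exact orderOf_dvd_natCard _
        exact hNIb2 p e _ r s hp hp5 he2 hen hpn hr hs hpk hl
      · have h1 : 131072 ≤ Nat.card k := by
          refine hXC k U H hD p hp hp5 y x (CIb_swap p x y hxy) ?_ hy
          exact hall y x (CIb_swap p x y hxy)
        rw [hk] at h1
        exact hNIb1 e _ r s he2 hen hr hs h1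
    · have h1 : 131072 ≤ Nat.card k := hXC k U H hD p hp hp5 x y hxy (hall x y hxy) hx
      rw [hk] at h1
      exact hNIb1 e _ r s he2 hen hr hs h1
  exact lt_of_le_of_lt (Nat.add_le_add_right hH 1) key

end QS
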